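import Pool.Agent.H207.BT.Stm6

/-!
# Project BT: the real estimates with a bound for the number of steps (helper118; adapted from helper450)
-/

set_option autoImplicit false
set_option linter.unusedVariables false

namespace Pool.Agent.H118.BT207

open Pool.Agent.H207.BT

/-- the basic inequalities for the logarithms -/
theorem real1_core {n mm lC lμ lc lB β a' r k1 s p : ℝ} (hn : 0 ≤ n) (hmm : 1 ≤ mm)
    (hlμ : 0 < lμ) (hβ : 0 < β) (hβC : β * lC ≤ lμ / 16) (hs : 0 < s) (hk0 : 0 ≤ k1)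
    (hk1 : lB - lc ≤ k1) (ha' : 0 ≤ a') (hr : r ≤ 0) (hp : p = r + a') (hpC : p ≤ n * lC)
    (h : lc + (n + 1) * lμ ≤ lB + mm * (r - s) + p) :
    -(a' + k1) / 2 ≤ r ∧ 8 * β * (a' - k1) - a' - k1 ≤ (mm + 1) * r := by
  have h1 : 0 ≤ mm * s := by positivity
  have h2 : n * lμ - a' - k1 ≤ (mm + 1) * r := by
    rw [hp] at h
    nlinarith
  have h3 : 0 ≤ n * lμ := by positivity
  have h4 : (mm + 1) * r ≤ 2 * r := by nlinarith
  have h5 : -(a' + k1) / 2 ≤ r := by linarith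
  refine ⟨h5, ?_⟩
  have h6 : (a' - k1) / 2 ≤ n * lC := by linarith
  have h7 : β * ((a' - k1) / 2) ≤ β * (n * lC) := mul_le_mul_of_nonneg_left h6 hβ.le
  have h8 : n * (β * lC) ≤ n * (lμ / 16) := mul_le_mul_of_nonneg_left hβC hn
  have h9 : 8 * β * (a' - k1) ≤ n * lμ := by nlinarith
  linarith

theorem real1_caseA {mm MM β a a' r k1 s p q lbk d z' : ℝ} (hmm : 1 ≤ mm) (hmM : mm ≤ MM)
    (hβ : 0 < β) (hβ1 : β ≤ 1 / 16) (hs : 0 < s) (hk0 : 0 ≤ k1) (ha : 0 ≤ a) (haa : a ≤ a')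
    (haa' : a' ≤ (1 + β / 8) * a) (hr : r ≤ 0) (hp : p = r + a') (hq : 0 ≤ q) (hl : 0 ≤ lbk) (hd : d ≤ 0)
    (h1 : -(a' + k1) / 2 ≤ r) (h2 : 8 * β * (a' - k1) - a' - k1 ≤ (mm + 1) * r)
    (hA : 4 * (1 + q + 20 * k1 + 4 * (MM + 1) * s + lbk - (MM + 2) * d) ≤ β * a)
    (hz : (1 + β) * (r - s) ≤ z') :
    q - a ≤ (mm + 1) * (r - s) ∧ s ≤ mm * z' + p ∧ -(1 + β) * a ≤ z' - lbk - p := by
  have hMM : 1 ≤ MM := hmm.trans hmM
  have e1 : (mm + 1) * s ≤ (MM + 1) * s := by nlinarith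
  have e2 : 0 ≤ -((MM + 2) * d) := by nlinarith
  have e3 : β * k1 ≤ k1 / 16 := by nlinarith
  have e4 : 0 ≤ β * k1 := by positivity
  have e5 : β * a ≤ β * a' := mul_le_mul_of_nonneg_left haa hβ.le
  have e6 : 0 ≤ (MM + 1) * s := by positivity
  have e7 : β * β * a ≤ β * a / 16 := by nlinarith [mul_nonneg hβ.le ha]
  have e8 : β * a' ≤ β * a + β * β * a / 8 := by nlinarith
  have e9 : 0 ≤ β * β * a := by positivity
  refine ⟨?_, ?_, ?_⟩
  · -- `(mm+1)(r-s) ≥ 8β(a'-k1) - a' - k1 - (mm+1) s`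
    nlinarith
  · -- second
    have f1 : mm * ((1 + β) * (r - s)) ≤ mm * z' := mul_le_mul_of_nonneg_left hz (by linarith)
    have f2 : β * (8 * β * (a' - k1) - a' - k1) ≤ β * ((mm + 1) * r) :=
      mul_le_mul_of_nonneg_left h2 hβ.le
    have f3 : β * ((mm + 1) * r) ≤ β * (mm * r) := by nlinarith
    have f4 : 0 ≤ β * β * a' := by
      have : 0 ≤ a' := ha.trans haa
      positivity
    have f5 : β * β * k1 ≤ k1 / 16 := by nlinarith
    have f6 : mm * ((1 + β) * s) ≤ 2 * ((MM + 1) * s) := by nlinarith [mul_nonneg hβ.le hs.le]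
    nlinarith
  · have f1 : β * (-(a' + k1) / 2) ≤ β * r := mul_le_mul_of_nonneg_left h1 hβ.le
    have f2 : (1 + β) * s ≤ 2 * ((MM + 1) * s) := by nlinarith
    nlinarith

theorem real1_caseB {mm MM β a a' r k1 s p q lbk d z z' : ℝ} (hmm : 1 ≤ mm) (hmM : mm ≤ MM)
    (hβ : 0 < β) (hβ1 : β ≤ 1 / 16) (hs : 0 < s) (hk0 : 0 ≤ k1) (ha : 0 ≤ a) (haa : a ≤ a')
    (haa' : a' ≤ (1 + β / 8) * a) (hr : r ≤ 0) (hp : p = r + a') (hq : 0 ≤ q) (hl : 0 ≤ lbk) (hd : d ≤ 0)
    (hA : 4 * (1 + q + 20 * k1 + 4 * (MM + 1) * s + lbk - (MM + 2) * d) ≤ β * a)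
    (hzd : (mm + 1) * z = d) (hzr : z ≤ r - s) (hz : (1 + β) * z ≤ z') :
    q - a ≤ (mm + 1) * z ∧ s ≤ mm * z' + p ∧ -(1 + β) * a ≤ z' - lbk - p := by
  have hMM : 1 ≤ MM := hmm.trans hmM
  have e2 : 0 ≤ -((MM + 2) * d) := by nlinarith
  have e6 : 0 ≤ (MM + 1) * s := by positivity
  have e7 : s ≤ (MM + 1) * s := by nlinarith
  have e8 : β * a ≤ a / 16 := by nlinarith
  have e9 : -d ≤ -((MM + 2) * d) := by nlinarith
  have e10 : -((MM + 1) * d) ≤ -((MM + 2) * d) := by nlinarith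
  have z0 : z ≤ 0 := by
    by_contra h
    push Not at h
    nlinarith
  have z1 : d ≤ z := by nlinarith
  have z2 : d ≤ (1 + β) * z := by nlinarith
  have z3 : MM * d ≤ mm * z' := by
    have g1 : mm * d ≤ mm * z' := mul_le_mul_of_nonneg_left (z2.trans hz) (by linarith)
    nlinarith
  refine ⟨?_, ?_, ?_⟩
  · rw [hzd]
    linarith
  · rw [hp]
    nlinarith
  · rw [hp]
    nlinarith

theorem real1T_A {n mm MM lC lμ lc lB β a a' r k1 s p q lbk d : ℝ} (hn : 0 ≤ n) (hmm : 1 ≤ mm)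
    (hmM : mm ≤ MM) (hlμ : 0 < lμ) (hβ : 0 < β) (hβ1 : β ≤ 1 / 16) (hβC : β * lC ≤ lμ / 16)
    (hs : 0 < s) (hk0 : 0 ≤ k1) (hk1 : lB - lc ≤ k1) (ha : 0 ≤ a) (haa : a ≤ a')
    (haa' : a' ≤ (1 + β / 8) * a) (hr : r ≤ 0) (hp : p = r + a') (hpC : p ≤ n * lC)
    (h : lc + (n + 1) * lμ ≤ lB + mm * (r - s) + p) (h1 : -(a' + k1) / 2 ≤ r)
    (hq : 0 ≤ q) (hl : 0 ≤ lbk) (hd : d ≤ 0)
    (hA : 4 * (1 + q + 20 * k1 + 4 * (MM + 1) * s + lbk - (MM + 2) * d) ≤ β * a) :
    (n + 1) * lμ ≤ 6 * ((mm + 1) * (r - s) + a) := by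
  have hMM : 1 ≤ MM := hmm.trans hmM
  have h6 : (a' - k1) / 2 ≤ n * lC := by linarith
  have h7 : β * ((a' - k1) / 2) ≤ β * (n * lC) := mul_le_mul_of_nonneg_left h6 hβ.le
  have h8 : n * (β * lC) ≤ n * (lμ / 16) := mul_le_mul_of_nonneg_left hβC hn
  have h9 : β * (n * lC) = n * (β * lC) := by ring
  have h10 : β * ((a' - k1) / 2) = β * a' / 2 - β * k1 / 2 := by ring
  have h11 : n * (lμ / 16) = n * lμ / 16 := by ring
  have h12 : β * a ≤ β * a' := mul_le_mul_of_nonneg_left haa hβ.le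
  have h13 : β * k1 ≤ 1 / 16 * k1 := mul_le_mul_of_nonneg_right hβ1 hk0
  have h14 : (n + 1) * lμ = n * lμ + lμ := by ring
  have h15 : 1 * s ≤ MM * s := mul_le_mul_of_nonneg_right hMM hs.le
  have h16 : 4 * (MM + 1) * s = 4 * (MM * s) + 4 * s := by ring
  have h17 : 0 ≤ (MM + 2) * (-d) := mul_nonneg (by linarith) (by linarith)
  have h18 : (MM + 2) * (-d) = -((MM + 2) * d) := by ring
  have h19 : (1 + β / 8) * a = a + β * a / 8 := by ring
  have h20 : (mm + 1) * (r - s) = mm * (r - s) + r - s := by ring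
  rw [h20]
  rw [h14] at h ⊢
  rw [h19] at haa'
  rw [h16] at hA
  rw [h9] at h7
  rw [h10] at h7
  rw [h11] at h8
  rw [hp] at h
  rw [h18] at h17
  linarith

theorem real1T_B {n mm MM lμ lc lB β a a' r k1 s p q lbk d : ℝ} (hmm : 1 ≤ mm)
    (hmM : mm ≤ MM) (hβ : 0 < β) (hβ1 : β ≤ 1 / 16)
    (hs : 0 < s) (hk0 : 0 ≤ k1) (hk1 : lB - lc ≤ k1) (ha : 0 ≤ a)
    (haa' : a' ≤ (1 + β / 8) * a) (hr : r ≤ 0) (hp : p = r + a')
    (h : lc + (n + 1) * lμ ≤ lB + mm * (r - s) + p)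
    (hq : 0 ≤ q) (hl : 0 ≤ lbk) (hd : d ≤ 0)
    (hA : 4 * (1 + q + 20 * k1 + 4 * (MM + 1) * s + lbk - (MM + 2) * d) ≤ β * a) :
    (n + 1) * lμ ≤ 6 * (d + a) := by
  have hMM : 1 ≤ MM := hmm.trans hmM
  have h1 : 0 ≤ mm * (s - r) := mul_nonneg (by linarith) (by linarith)
  have h2 : mm * (s - r) = -(mm * (r - s)) := by ring
  have h3 : β * a ≤ 1 / 16 * a := mul_le_mul_of_nonneg_right hβ1 ha
  have h4 : 0 ≤ 4 * (MM + 1) * s := by
    have : 0 ≤ MM + 1 := by linarith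
    positivity
  have h5 : 0 ≤ (MM - 1) * (-d) := mul_nonneg (by linarith) (by linarith)
  have h6 : (MM - 1) * (-d) = -((MM + 2) * d) + 3 * d := by ring
  have h19 : (1 + β / 8) * a = a + β * a / 8 := by ring
  rw [h2] at h1
  rw [h6] at h5
  rw [h19] at haa'
  rw [hp] at h
  linarith

theorem t_REAL1T : Pool.Agent.H207.BT.S_REAL1T := by
  intro C c μ B K₀ β δ₁ M hc hμ hμC hB hK hβ hβC hδ₁ hδ₁1
  have hC : 1 < C := lt_of_lt_of_le hμ hμC
  have LC : 0 < Real.log C := Real.log_pos hC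
  have Lμ : 0 < Real.log μ := Real.log_pos hμ
  have LμC : Real.log μ ≤ Real.log C := Real.log_le_log (by linarith) hμC
  have hβ1 : β ≤ 1 / 16 := by
    by_contra h
    push Not at h
    nlinarith
  have hB0 : 0 < B := by linarith
  have hK0 : 0 < K₀ := by linarith
  have hKB : 1 ≤ K₀ * B := by nlinarith
  have hs : 0 < Real.log (2 * K₀ * B) := Real.log_pos (by nlinarith)
  have hq : 0 ≤ Real.log (2 + K₀ * B) := Real.log_nonneg (by linarith)
  have hl : 0 ≤ Real.log (B * K₀) := Real.log_nonneg (by nlinarith)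
  have hd : Real.log δ₁ ≤ 0 := Real.log_nonpos hδ₁.le hδ₁1
  set s := Real.log (2 * K₀ * B) with hsdef
  set q := Real.log (2 + K₀ * B) with hqdef
  set lbk := Real.log (B * K₀) with hldef
  set d := Real.log δ₁ with hddef
  set k1 := max 0 (Real.log B - Real.log c) with hk1def
  have hk0 : 0 ≤ k1 := le_max_left _ _
  have hk1 : Real.log B - Real.log c ≤ k1 := le_max_right _ _
  set Q := 1 + q + 20 * k1 + 4 * ((M : ℝ) + 1) * s + lbk - ((M : ℝ) + 2) * d with hQ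
  have hM0 : (0 : ℝ) ≤ M := Nat.cast_nonneg M
  have hQ0 : 0 ≤ Q := by
    have g1 : 0 ≤ 4 * ((M : ℝ) + 1) * s := by positivity
    have g2 : 0 ≤ -(((M : ℝ) + 2) * d) := by nlinarith
    rw [hQ]
    linarith
  refine ⟨Real.exp (-(4 * Q / β)), Real.exp_pos _, 6 / Real.log μ, by positivity, ?_⟩
  intro δ δ' P N m hδ hδb h1 h2 hm1 hmM hP hPC hR hmain y hy
  have hδ'0 : 0 < δ' := lt_of_lt_of_le (Real.rpow_pos_of_pos hδ _) h1
  have hR0 : 0 < δ' * P := mul_pos hδ'0 hP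
  have h2KB : 0 < 2 * K₀ * B := by positivity
  -- logarithms
  have la : 4 * Q / β < - Real.log δ := by
    have g1 := Real.log_lt_log hδ hδb
    rw [Real.log_exp] at g1
    linarith
  have hA : 4 * Q ≤ β * (- Real.log δ) := by
    have g1 : 4 * Q < - Real.log δ * β := (div_lt_iff₀ hβ).1 la
    linarith
  have ha0 : 0 ≤ - Real.log δ := by
    have g1 : 0 ≤ 4 * Q / β := by positivity
    linarith
  have haa : - Real.log δ ≤ - Real.log δ' := by
    have g1 := Real.log_le_log hδ'0 h2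
    linarith
  have haa' : - Real.log δ' ≤ (1 + β / 8) * (- Real.log δ) := by
    have g1 := Real.log_le_log (Real.rpow_pos_of_pos hδ _) h1
    rw [Real.log_rpow hδ] at g1
    linarith
  have hr : Real.log (δ' * P) ≤ 0 := Real.log_nonpos hR0.le hR
  have hp : Real.log P = Real.log (δ' * P) + (- Real.log δ') := by
    rw [Real.log_mul hδ'0.ne' hP.ne']
    ring
  have hpC : Real.log P ≤ (N : ℝ) * Real.log C := by
    have g1 := Real.log_le_log hP hPC
    rw [Real.log_pow] at g1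
    exact g1
  have hmm1 : (1 : ℝ) ≤ (m : ℝ) := by exact_mod_cast hm1
  have hmmM : (m : ℝ) ≤ (M : ℝ) := by exact_mod_cast hmM
  have hmain' : Real.log c + ((N : ℝ) + 1) * Real.log μ ≤
      Real.log B + (m : ℝ) * (Real.log (δ' * P) - s) + Real.log P := by
    have hμ0 : 0 < μ := by linarith
    have g0 : 0 < c * μ ^ (N + 1) := by positivity
    have g1 := Real.log_le_log g0 hmain
    have g2 : 0 < ((δ' * P) / (2 * K₀ * B)) ^ m := by positivity
    rw [Real.log_mul hc.ne' (by positivity), Real.log_pow,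
      Real.log_mul (by positivity) hP.ne', Real.log_mul hB0.ne' g2.ne', Real.log_pow,
      Real.log_div hR0.ne' h2KB.ne'] at g1
    push_cast at g1
    linarith
  obtain ⟨c1, c2⟩ := real1_core (Nat.cast_nonneg N) hmm1 Lμ hβ hβC hs hk0 hk1
    (ha0.trans haa) hr hp hpC hmain'
  have hm1pos : (0 : ℝ) < (m : ℝ) + 1 := by positivity
  have hpow0 : 0 < δ₁ ^ ((1 : ℝ) / ((m : ℝ) + 1)) := Real.rpow_pos_of_pos hδ₁ _
  have hpow1 : Real.log (δ₁ ^ ((1 : ℝ) / ((m : ℝ) + 1))) = d / ((m : ℝ) + 1) := by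
    rw [Real.log_rpow hδ₁]
    ring
  have hlogR : Real.log ((δ' * P) / (2 * K₀ * B)) = Real.log (δ' * P) - s :=
    Real.log_div hR0.ne' h2KB.ne'
  have hy0 : 0 < y := by
    rw [hy]
    exact lt_min (by positivity) hpow0
  have hyle : Real.log y ≤ d / ((m : ℝ) + 1) := by
    rw [← hpow1]
    apply Real.log_le_log hy0
    rw [hy]
    exact min_le_right _ _
  -- the three inequalities, for every `z'`
  have key : ∀ z' : ℝ, (1 + β) * Real.log y ≤ z' →
      q - (- Real.log δ) ≤ ((m : ℝ) + 1) * Real.log y ∧ s ≤ (m : ℝ) * z' + Real.log P ∧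
        -(1 + β) * (- Real.log δ) ≤ z' - lbk - Real.log P := by
    intro z' hz'
    rcases le_total ((δ' * P) / (2 * K₀ * B)) (δ₁ ^ ((1 : ℝ) / ((m : ℝ) + 1))) with hle | hle
    · have hyA : y = (δ' * P) / (2 * K₀ * B) := by rw [hy, min_eq_left hle]
      have hlA : Real.log y = Real.log (δ' * P) - s := by rw [hyA, hlogR]
      rw [hlA] at hz' ⊢
      exact real1_caseA hmm1 hmmM hβ hβ1 hs hk0 ha0 haa haa' hr hp hq hl hd c1 c2 hA hz'
    · have hyB : y = δ₁ ^ ((1 : ℝ) / ((m : ℝ) + 1)) := by rw [hy, min_eq_right hle]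
      have hlB : Real.log y = d / ((m : ℝ) + 1) := by rw [hyB, hpow1]
      have hzd : ((m : ℝ) + 1) * Real.log y = d := by
        rw [hlB]
        field_simp
      have hzr : Real.log y ≤ Real.log (δ' * P) - s := by
        rw [hyB, ← hlogR]
        exact Real.log_le_log hpow0 hle
      exact real1_caseB hmm1 hmmM hβ hβ1 hs hk0 ha0 haa haa' hr hp hq hl hd hA hzd hzr hz'
  refine ⟨hy0, ?_, ?_, ?_, ?_⟩
  · obtain ⟨k, _, _⟩ := key _ le_rfl
    have g0 : 0 < 2 + K₀ * B := by positivity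
    rw [← Real.log_le_log_iff (by positivity) (by positivity), Real.log_mul g0.ne' hδ.ne',
      Real.log_pow]
    push_cast
    linarith
  · rw [← Real.log_le_log_iff (by positivity) hδ₁, Real.log_pow]
    push_cast
    have := (le_div_iff₀ hm1pos).1 hyle
    linarith
  · have e1 : Real.log (y ^ (m + 1) / δ) = ((m : ℝ) + 1) * Real.log y + (- Real.log δ) := by
      rw [Real.log_div (by positivity) hδ.ne', Real.log_pow]
      push_cast
      ring
    have e2 : ((N : ℝ) + 1) * Real.log μ ≤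
        6 * (((m : ℝ) + 1) * Real.log y + (- Real.log δ)) := by
      rcases le_total ((δ' * P) / (2 * K₀ * B)) (δ₁ ^ ((1 : ℝ) / ((m : ℝ) + 1))) with hle | hle
      · have hyA : y = (δ' * P) / (2 * K₀ * B) := by rw [hy, min_eq_left hle]
        have hlA : Real.log y = Real.log (δ' * P) - s := by rw [hyA, hlogR]
        rw [hlA]
        exact real1T_A (Nat.cast_nonneg N) hmm1 hmmM Lμ hβ hβ1 hβC hs hk0 hk1 ha0 haa haa' hr hp
          hpC hmain' c1 hq hl hd hA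
      · have hyB : y = δ₁ ^ ((1 : ℝ) / ((m : ℝ) + 1)) := by rw [hy, min_eq_right hle]
        have hlB : Real.log y = d / ((m : ℝ) + 1) := by rw [hyB, hpow1]
        have hzd : ((m : ℝ) + 1) * Real.log y = d := by
          rw [hlB]
          field_simp
        rw [hzd]
        exact real1T_B hmm1 hmmM hβ hβ1 hs hk0 hk1 ha0 haa' hr hp hmain' hq hl hd hA
    rw [e1, div_mul_eq_mul_div, le_div_iff₀ Lμ]
    exact e2
  · intro y' hy1 hy2
    have hy'0 : 0 < y' := lt_of_lt_of_le (Real.rpow_pos_of_pos hy0 _) hy1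
    have hz : (1 + β) * Real.log y ≤ Real.log y' := by
      have g1 := Real.log_le_log (Real.rpow_pos_of_pos hy0 _) hy1
      rw [Real.log_rpow hy0] at g1
      exact g1
    obtain ⟨_, k2, k3⟩ := key _ hz
    constructor
    · rw [← Real.log_le_log_iff h2KB (by positivity), Real.log_mul (by positivity) hP.ne',
        Real.log_pow]
      exact k2
    · have g1 : 0 < B * K₀ := by positivity
      rw [← Real.log_le_log_iff (Real.rpow_pos_of_pos hδ _) (by positivity), Real.log_rpow hδ,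
        Real.log_div hy'0.ne' (by positivity), Real.log_mul g1.ne' hP.ne']
      linarith

end Pool.Agent.H118.BT207
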